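import Pool.Agent.W181.WH.Stm

/-!
# Project WH (MP_2f3d29_nt): subtask IBP

`t_ibp : S_KKI → S_IBP`.
-/

open MeasureTheory

namespace Pool.Agent.W839.WH

open Pool.Agent.W181.WH

variable {n : ℕ}

/-- the derivation `∂/∂t_k` on polynomials in `ρ, σ` -/
noncomputable def Dk (k : Fin n) (f : MvPolynomial (Fin n ⊕ Fin n) ℂ) :
    MvPolynomial (Fin n ⊕ Fin n) ℂ :=
  MvPolynomial.C (-2) * (MvPolynomial.X (Sum.inl k) * MvPolynomial.pderiv (Sum.inl k) f) +
    MvPolynomial.C 2 * (MvPolynomial.X (Sum.inr k) * MvPolynomial.pderiv (Sum.inr k) f)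

theorem rs_hasDeriv (x : Fin (n + 1) → ℝ) (t : Fin n → ℝ) (k : Fin n) (i : Fin n ⊕ Fin n) :
    HasDerivAt (fun s : ℝ => rs x (t + s • (Pi.single k 1 : Fin n → ℝ)) i)
      (MvPolynomial.eval (rs x t) (Dk k (MvPolynomial.X i))) 0 := by
  rcases i with j | j
  · have h0 : HasDerivAt (fun s : ℝ => x j.succ - (t + s • (Pi.single k 1 : Fin n → ℝ)) j)
        (-(if j = k then 1 else 0)) 0 := by
      simp only [Pi.add_apply, Pi.smul_apply, smul_eq_mul, Pi.single_apply]
      have h1 := (((hasDerivAt_id (0 : ℝ)).mul_const (if j = k then (1 : ℝ) else 0)).const_add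
        (t j)).const_sub (x j.succ)
      simpa using h1
    have h2 := (((h0.const_mul 2).exp).const_mul Real.pi).ofReal_comp
    simp only [rs]
    convert! h2 using 1
    simp only [Dk, map_add, map_mul, MvPolynomial.eval_C, MvPolynomial.eval_X, rs,
      MvPolynomial.pderiv_X, Pi.single_apply]
    by_cases hjk : j = k
    · subst hjk
      simp
      ring
    · simp [hjk]
  · have h0 : HasDerivAt (fun s : ℝ => (t + s • (Pi.single k 1 : Fin n → ℝ)) j - x j.castSucc)
        ((if j = k then 1 else 0)) 0 := by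
      simp only [Pi.add_apply, Pi.smul_apply, smul_eq_mul, Pi.single_apply]
      have h1 := (((hasDerivAt_id (0 : ℝ)).mul_const (if j = k then (1 : ℝ) else 0)).const_add
        (t j)).sub_const (x j.castSucc)
      simpa using h1
    have h2 := (((h0.const_mul 2).exp).const_mul Real.pi).ofReal_comp
    simp only [rs]
    convert! h2 using 1
    simp only [Dk, map_add, map_mul, MvPolynomial.eval_C, MvPolynomial.eval_X, rs,
      MvPolynomial.pderiv_X, Pi.single_apply]
    by_cases hjk : j = k
    · subst hjk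
      simp
      ring
    · simp [hjk]

theorem eval_hasDeriv (x : Fin (n + 1) → ℝ) (t : Fin n → ℝ) (k : Fin n)
    (f : MvPolynomial (Fin n ⊕ Fin n) ℂ) :
    HasDerivAt (fun s : ℝ => MvPolynomial.eval (rs x (t + s • (Pi.single k 1 : Fin n → ℝ))) f)
      (MvPolynomial.eval (rs x t) (Dk k f)) 0 := by
  induction f using MvPolynomial.induction_on with
  | C c =>
    simpa [Dk] using hasDerivAt_const (0 : ℝ) c
  | add p q hp hq =>
    have h := hp.add hq
    simp only [map_add]
    convert! h using 1
    simp only [Dk, map_add, map_mul]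
    ring
  | mul_X p i hp =>
    have h := hp.mul (rs_hasDeriv x t k i)
    simp only [map_mul, MvPolynomial.eval_X]
    convert! h using 1
    simp only [zero_smul, add_zero]
    rw [show Dk k (p * MvPolynomial.X i) = Dk k p * MvPolynomial.X i + p * Dk k (MvPolynomial.X i) by
      simp only [Dk, MvPolynomial.pderiv_mul]
      ring]
    simp only [map_add, map_mul, MvPolynomial.eval_X]

theorem Qk_hasDeriv (a : ℂ) (x : Fin (n + 1) → ℝ) (t : Fin n → ℝ) (k : Fin n) :
    HasDerivAt (fun s : ℝ => Qk (2 * a) x (t + s • (Pi.single k 1 : Fin n → ℝ)))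
      ((-2 * (a - rs x t (Sum.inl k) + rs x t (Sum.inr k))) * Qk (2 * a) x t) 0 := by
  have ht : ∀ j, HasDerivAt (fun s : ℝ => (t + s • (Pi.single k 1 : Fin n → ℝ)) j)
      ((if j = k then 1 else 0)) 0 := by
    intro j
    simp only [Pi.add_apply, Pi.smul_apply, smul_eq_mul, Pi.single_apply]
    have h1 := (((hasDerivAt_id (0 : ℝ)).mul_const (if j = k then (1 : ℝ) else 0)).const_add (t j))
    simpa using h1
  have hs : HasDerivAt (fun s : ℝ => ∑ i, x i - ∑ i, (t + s • (Pi.single k 1 : Fin n → ℝ)) i)
      (-1) 0 := by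
    have h := (HasDerivAt.fun_sum (u := Finset.univ) (fun j _ => ht j)).const_sub (∑ i, x i)
    simpa using h
  have hE : HasDerivAt (fun s : ℝ => ∑ j : Fin n,
      (Real.exp (2 * (x j.succ - (t + s • (Pi.single k 1 : Fin n → ℝ)) j)) +
        Real.exp (2 * ((t + s • (Pi.single k 1 : Fin n → ℝ)) j - x j.castSucc))))
      (-2 * Real.exp (2 * (x k.succ - t k)) + 2 * Real.exp (2 * (t k - x k.castSucc))) 0 := by
    have h := HasDerivAt.fun_sum (u := Finset.univ) (fun j _ =>
      ((((ht j).const_sub (x j.succ)).const_mul 2).exp).add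
        ((((ht j).sub_const (x j.castSucc)).const_mul 2).exp))
    convert! h using 1
    rw [Finset.sum_eq_single k]
    · simp
      ring
    · intro j _ hj
      simp [hj]
    · simp
  have h1 := ((hs.ofReal_comp.const_mul (2 * a)).cexp).mul (((hE.const_mul (-Real.pi)).exp).ofReal_comp)
  unfold Qk
  convert! h1 using 1
  simp only [zero_smul, add_zero, rs]
  push_cast
  ring

theorem G_hasDeriv (a : ℂ) (x : Fin (n + 1) → ℝ) (t : Fin n → ℝ) (k : Fin n)
    (f : MvPolynomial (Fin n ⊕ Fin n) ℂ) :
    HasLineDerivAt ℝ (fun t : Fin n → ℝ => MvPolynomial.eval (rs x t) f * Qk (2 * a) x t)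
      (-2 * (MvPolynomial.eval (rs x t) (dT a k f) * Qk (2 * a) x t)) t (Pi.single k 1) := by
  unfold HasLineDerivAt
  have h := (eval_hasDeriv x t k f).mul (Qk_hasDeriv a x t k)
  convert! h using 1
  simp only [zero_smul, add_zero, dT, Dk, map_add, map_sub, map_mul, MvPolynomial.eval_C,
    MvPolynomial.eval_X]
  ring

theorem t_ibp : S_KKI → S_IBP := by
  intro hK n a k H f hH hg hgk x
  have hHc : Continuous H := hH.continuous
  have hHk : Continuous (pd k H) := by
    unfold pd
    exact (hH.continuous_fderiv (by norm_num)).clm_apply continuous_const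
  have i1 := (hK n a H (dT a k f) hHc hg).1 x
  have i2 := (hK n a (pd k H) f hHk hgk).1 x
  have i3 := (hK n a H f hHc hg).1 x
  have key := integral_bilinear_hasLineDerivAt_right_eq_neg_left_of_integrable
    (μ := (volume : Measure (Fin n → ℝ)))
    (f := fun t : Fin n → ℝ => MvPolynomial.eval (rs x t) f * Qk (2 * a) x t)
    (f' := fun t => -2 * (MvPolynomial.eval (rs x t) (dT a k f) * Qk (2 * a) x t))
    (g := H) (g' := pd k H) (v := Pi.single k 1) (B := ContinuousLinearMap.mul ℝ ℂ)
    (by
      have := i1.const_mul (-2)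
      refine this.congr (Filter.Eventually.of_forall fun t => ?_)
      simp only [ContinuousLinearMap.mul_apply']
      ring)
    (by simpa only [ContinuousLinearMap.mul_apply'] using i2)
    (by simpa only [ContinuousLinearMap.mul_apply'] using i3)
    (fun t _ => G_hasDeriv a x t k f)
    (fun t _ => ((hH.differentiable (by norm_num)) t).hasFDerivAt.hasLineDerivAt _)
  simp only [ContinuousLinearMap.mul_apply'] at key
  unfold KK
  rw [key, ← integral_neg, ← integral_const_mul]
  refine integral_congr_ae (Filter.Eventually.of_forall fun t => ?_)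
  simp only
  ring

end Pool.Agent.W839.WH
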